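import Pool.Agent.H9.FC.TA

/-! Modules LST and QC. -/

namespace Pool.Agent.H73.FC

open Pool.Agent.H9.FC
open Set BSet

theorem pf_LST : T_LST := by
  intro B _ c n
  constructor
  · refine top_le_iff.1 ?_
    have hc : ∀ m, c n m ≤ ⨆ i, least c n i := by
      intro m
      induction m using Nat.strong_induction_on with
      | _ m ih =>
        have e : c n m = (c n m ⊓ ⨅ k : Fin m, (c n k)ᶜ) ⊔ (c n m ⊓ (⨅ k : Fin m, (c n k)ᶜ)ᶜ) := by
          rw [← inf_sup_left, sup_compl_eq_top, inf_top_eq]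
        rw [e]
        refine sup_le ?_ ?_
        · refine le_trans ?_ (le_iSup _ m)
          exact le_sup_left
        · refine inf_le_right.trans ?_
          rw [compl_iInf]
          refine iSup_le fun k => ?_
          rw [compl_compl]
          exact ih k k.2
    have h1 : (⨆ m, c n m) ≤ ⨆ i, least c n i := iSup_le hc
    have h2 : (⨆ m, c n m)ᶜ ≤ ⨆ i, least c n i := by
      rw [compl_iSup]
      refine le_trans ?_ (le_iSup _ 0)
      unfold least
      rw [if_pos rfl]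
      exact le_sup_right
    calc (⊤ : B) = (⨆ m, c n m) ⊔ (⨆ m, c n m)ᶜ := sup_compl_eq_top.symm
      _ ≤ _ := sup_le h1 h2
  · have key : ∀ i j, i < j → least c n i ⊓ least c n j = ⊥ := by
      intro i j hij
      refine le_bot_iff.1 ?_
      have hj : least c n j = c n j ⊓ ⨅ k : Fin j, (c n k)ᶜ := by
        unfold least
        rw [if_neg (by omega), sup_bot_eq]
      rw [hj]
      unfold least
      rw [inf_sup_right]
      refine sup_le ?_ ?_
      · have h1 : (⨅ k : Fin j, (c n k)ᶜ) ≤ (c n i)ᶜ := iInf_le (fun k : Fin j => (c n k)ᶜ) ⟨i, hij⟩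
        calc c n i ⊓ (⨅ k : Fin i, (c n k)ᶜ) ⊓ (c n j ⊓ ⨅ k : Fin j, (c n k)ᶜ)
            ≤ c n i ⊓ (c n i)ᶜ :=
              inf_le_inf inf_le_left (inf_le_right.trans h1)
          _ = ⊥ := inf_compl_eq_bot
          _ ≤ ⊥ := le_rfl
      · split_ifs with h0
        · have h1 : (⨅ k, (c n k)ᶜ) ≤ (c n j)ᶜ := iInf_le _ j
          calc (⨅ k, (c n k)ᶜ) ⊓ (c n j ⊓ ⨅ k : Fin j, (c n k)ᶜ)
              ≤ (c n j)ᶜ ⊓ c n j := inf_le_inf h1 inf_le_left
            _ = ⊥ := compl_inf_eq_bot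
            _ ≤ ⊥ := le_rfl
        · rw [bot_inf_eq]
    intro i j hij
    rcases lt_or_gt_of_ne hij with h | h
    · exact key i j h
    · show least c n i ⊓ least c n j = ⊥
      rw [inf_comm]
      exact key j i h

theorem pf_QC (hQN : T_QN) (hNUM : T_NUM) : T_QC := by
  intro B _ M hn hp z f
  obtain ⟨hq1, hq2⟩ := hQN B M hn hp
  obtain ⟨_, _, _, _, hne, _⟩ := hNUM B
  have hX : ∀ n m, bnp n m ∈ M.X := fun n m =>
    hp _ _ (hp _ _ (hn n) (hn n)) (hp _ _ (hn n) (hn m))
  have hcod : Codes M.E (M.cl z) f ↔ ∀ t : M.N, M.E t (M.cl z) ↔ ∃ n, t = M.cl ⟨bnp n (f n), hX _ _⟩ := by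
    unfold Codes
    refine forall_congr' fun t => ?_
    refine iff_congr Iff.rfl ?_
    constructor
    · rintro ⟨n, x, y, hx, hy, hxy⟩
      rw [hq1] at hx hy
      subst hx hy
      rw [hq2] at hxy
      exact ⟨n, hxy⟩
    · rintro ⟨n, rfl⟩
      refine ⟨n, _, _, (hq1 _ _).2 rfl, (hq1 _ _).2 rfl, ?_⟩
      rw [hq2]
      rfl
  rw [hcod]
  constructor
  · intro h
    refine ⟨?_, ?_⟩
    · intro n m
      have h1 := h (M.cl ⟨bnp n m, hX n m⟩)
      rw [M.E_cl] at h1
      unfold rv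
      rw [h1]
      constructor
      · rintro ⟨n', hn'⟩
        rw [M.cl_eq] at hn'
        by_contra hcon
        have h2 : (n, m) ≠ (n', f n') := by
          intro h3
          rw [Prod.mk.injEq] at h3
          obtain ⟨h4, h5⟩ := h3
          subst h4
          exact hcon h5
        have h3 := hne n m n' (f n') h2
        rw [show beq (bnp n m : BSet B) (bnp n' (f n')) = ⊥ from h3] at hn'
        exact M.bot_not_mem hn'
      · rintro rfl
        exact ⟨n, rfl⟩
    · intro t ht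
      obtain ⟨n, hn'⟩ := (h (M.cl t)).1 ((M.E_cl _ _).2 ht)
      exact ⟨n, f n, (M.cl_eq _ _).1 hn'⟩
  · rintro ⟨h1, h2⟩ t
    obtain ⟨t0, rfl⟩ := M.cl_surj t
    constructor
    · intro ht
      rw [M.E_cl] at ht
      obtain ⟨n, m, hnm⟩ := h2 t0 ht
      have h3 : rv z.1 n m ∈ M.G :=
        M.up (M.inf_mem hnm ht) (bmem_congr_left _ _ _)
      have h4 := (h1 n m).1 h3
      subst h4
      exact ⟨n, (M.cl_eq _ _).2 hnm⟩
    · rintro ⟨n, hn'⟩
      rw [hn', M.E_cl]
      exact (h1 n (f n)).2 rfl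

end Pool.Agent.H73.FC
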